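import Pool.Agent.helper26.Torus.Inv

/-! The diffeomorphism of `T² × ℝ²` onto `T² × disc(δ)`. -/

set_option autoImplicit false

namespace Pool.Agent.helper26.Torus

noncomputable def qq (x : E) : ℝ := 1 + x 2 ^ 2 + x 3 ^ 2

lemma qq_pos (x : E) : 0 < qq x := by unfold qq; positivity

noncomputable def hh (δ : ℝ) (x : E) : ℝ := δ / Real.sqrt (qq x)

noncomputable def FF (δ : ℝ) (x : E) : E := ![x 0, x 1, hh δ x * x 2, hh δ x * x 3]

lemma coord_contDiff (i : Fin 4) (n : ℕ) : ContDiff ℝ n (fun x : E => x i) :=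
  contDiff_apply ℝ ℝ i

lemma qq_contDiff (n : ℕ) : ContDiff ℝ n qq :=
  (contDiff_const.add ((coord_contDiff 2 n).pow 2)).add ((coord_contDiff 3 n).pow 2)

lemma hh_contDiff (δ : ℝ) (n : ℕ) : ContDiff ℝ n (hh δ) := by
  refine contDiff_const.div ((qq_contDiff n).sqrt fun x => (qq_pos x).ne') fun x => ?_
  exact (Real.sqrt_pos.mpr (qq_pos x)).ne'

lemma FF_contDiff (δ : ℝ) (n : ℕ) : ContDiff ℝ n (FF δ) := by
  rw [contDiff_pi]
  intro i
  fin_cases i
  · exact coord_contDiff 0 n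
  · exact coord_contDiff 1 n
  · exact (hh_contDiff δ n).mul (coord_contDiff 2 n)
  · exact (hh_contDiff δ n).mul (coord_contDiff 3 n)

lemma hh_sq (δ : ℝ) (x : E) : hh δ x ^ 2 * qq x = δ ^ 2 := by
  unfold hh
  rw [div_pow, Real.sq_sqrt (qq_pos x).le]
  field_simp [(qq_pos x).ne']

lemma dd_coord (i : Fin 4) (u x : E) : dd u (fun y : E => y i) x = u i := by
  unfold dd
  have : (fun y : E => y i) = (ContinuousLinearMap.proj i : E →L[ℝ] ℝ) := rfl
  rw [this, ContinuousLinearMap.fderiv]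
  rfl

lemma dd_mul {f g : E → ℝ} (hf : Differentiable ℝ f) (hg : Differentiable ℝ g) (u x : E) :
    dd u (fun y => f y * g y) x = dd u f x * g x + f x * dd u g x := by
  unfold dd
  rw [fderiv_fun_mul (hf x) (hg x)]
  simp
  ring

lemma dd_pi {F : E → E} (hF : Differentiable ℝ F) (u x : E) (i : Fin 4) :
    dd u F x i = dd u (fun y => F y i) x := by
  unfold dd
  have h : ∀ i, DifferentiableAt ℝ (fun y => F y i) x := fun i => (differentiableAt_pi.mp (hF x)) i
  have := fderiv_pi h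
  have e : F = fun y => fun i => F y i := rfl
  conv_lhs => rw [e, this]
  rfl

lemma coord_diff (i : Fin 4) : Differentiable ℝ (fun y : E => y i) :=
  (coord_contDiff i 1).differentiable (by norm_num)

lemma hh_diff (δ : ℝ) : Differentiable ℝ (hh δ) := dd_diff (hh_contDiff δ)

lemma FF_diff (δ : ℝ) : Differentiable ℝ (FF δ) := dd_diff (FF_contDiff δ)

lemma dd_FF0 (δ : ℝ) (u x : E) : dd u (FF δ) x 0 = u 0 := by
  rw [dd_pi (FF_diff δ)]
  exact dd_coord 0 u x

lemma dd_FF1 (δ : ℝ) (u x : E) : dd u (FF δ) x 1 = u 1 := by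
  rw [dd_pi (FF_diff δ)]
  exact dd_coord 1 u x

lemma dd_FF2 (δ : ℝ) (u x : E) : dd u (FF δ) x 2 = dd u (hh δ) x * x 2 + hh δ x * u 2 := by
  rw [dd_pi (FF_diff δ)]
  have := dd_mul (hh_diff δ) (coord_diff 2) u x
  rw [dd_coord] at this
  exact this

lemma dd_FF3 (δ : ℝ) (u x : E) : dd u (FF δ) x 3 = dd u (hh δ) x * x 3 + hh δ x * u 3 := by
  rw [dd_pi (FF_diff δ)]
  have := dd_mul (hh_diff δ) (coord_diff 3) u x
  rw [dd_coord] at this
  exact this

lemma dd_qq (u x : E) : dd u qq x = 2 * (x 2 * u 2 + x 3 * u 3) := by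
  have e : qq = fun y : E => (fun _ : E => (1:ℝ)) y + (fun y : E => y 2 * y 2) y
      + (fun y : E => y 3 * y 3) y := by
    funext y
    unfold qq
    ring
  rw [e, dd_add3 (f := fun _ : E => (1:ℝ)) (g := fun y : E => y 2 * y 2)
    (h := fun y : E => y 3 * y 3) (differentiable_const _) ((coord_diff 2).mul (coord_diff 2))
    ((coord_diff 3).mul (coord_diff 3)), dd_mul (coord_diff 2) (coord_diff 2),
    dd_mul (coord_diff 3) (coord_diff 3), dd_coord, dd_coord]
  have : dd u (fun _ : E => (1:ℝ)) x = 0 := by unfold dd; simp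
  rw [this]
  ring

lemma dd_hh (δ : ℝ) (hδ : 0 < δ) (u x : E) :
    dd u (hh δ) x * qq x = - hh δ x * (x 2 * u 2 + x 3 * u 3) := by
  have hpos : 0 < hh δ x := div_pos hδ (Real.sqrt_pos.mpr (qq_pos x))
  have dh := hh_diff δ
  have dq : Differentiable ℝ qq := dd_diff qq_contDiff
  have h1 : (fun y => (hh δ y * hh δ y) * qq y) = fun _ => δ ^ 2 := by
    funext y
    rw [← hh_sq δ y]; ring
  have h2 : dd u (fun y => (hh δ y * hh δ y) * qq y) x = 0 := by
    rw [h1]; unfold dd; simp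
  have h2' := dd_mul (f := fun y => hh δ y * hh δ y) (g := qq) (dh.mul dh) dq u x
  rw [h2, dd_mul dh dh, dd_qq] at h2'
  have h3 : 2 * hh δ x * (dd u (hh δ) x * qq x + hh δ x * (x 2 * u 2 + x 3 * u 3)) = 0 := by
    linarith
  have h4 : dd u (hh δ) x * qq x + hh δ x * (x 2 * u 2 + x 3 * u 3) = 0 := by
    rcases mul_eq_zero.mp h3 with h | h
    · exfalso; linarith
    · exact h
  linarith

lemma dd_FF_inj (δ : ℝ) (hδ : 0 < δ) (x u : E) (h : dd u (FF δ) x = 0) : u = 0 := by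
  have hpos : 0 < hh δ x := div_pos hδ (Real.sqrt_pos.mpr (qq_pos x))
  have e0 := dd_FF0 δ u x
  have e1 := dd_FF1 δ u x
  have e2 := dd_FF2 δ u x
  have e3 := dd_FF3 δ u x
  rw [h] at e0 e1 e2 e3
  simp only [Pi.zero_apply] at e0 e1 e2 e3
  have hq := dd_hh δ hδ u x
  have k1 : hh δ x * (x 2 * u 2 + x 3 * u 3) = 0 := by
    have : qq x * (dd u (hh δ) x * (x 2 ^ 2 + x 3 ^ 2) + hh δ x * (x 2 * u 2 + x 3 * u 3)) = 0 := by
      have : dd u (hh δ) x * (x 2 ^ 2 + x 3 ^ 2) + hh δ x * (x 2 * u 2 + x 3 * u 3) = 0 := by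
        linear_combination -(x 2) * e2 - x 3 * e3
      rw [this, mul_zero]
    unfold qq at this hq
    linear_combination this - (x 2 ^ 2 + x 3 ^ 2) * hq
  have k2 : x 2 * u 2 + x 3 * u 3 = 0 := by
    rcases mul_eq_zero.mp k1 with h | h
    · exfalso; linarith
    · exact h
  have k3 : dd u (hh δ) x = 0 := by
    rw [k2, mul_zero] at hq
    rcases mul_eq_zero.mp hq with h | h
    · exact h
    · exact absurd h (qq_pos x).ne'
  rw [k3] at e2 e3
  have k4 : u 2 = 0 := by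
    have : hh δ x * u 2 = 0 := by linarith
    rcases mul_eq_zero.mp this with h | h
    · exfalso; linarith
    · exact h
  have k5 : u 3 = 0 := by
    have : hh δ x * u 3 = 0 := by linarith
    rcases mul_eq_zero.mp this with h | h
    · exfalso; linarith
    · exact h
  funext i
  fin_cases i
  · exact e0.symm
  · exact e1.symm
  · exact k4
  · exact k5

lemma dd_FF_tan (δ : ℝ) (i : Fin 4) (hi : i.val < 2) (hδ : 0 < δ) (x : E) :
    dd (ee i) (FF δ) x = ee i := by
  have h2 : (ee i : E) 2 = 0 := by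
    have : i ≠ 2 := by rintro rfl; simp at hi
    simp [ee, this.symm]
  have h3 : (ee i : E) 3 = 0 := by
    have : i ≠ 3 := by rintro rfl; simp at hi
    simp [ee, this.symm]
  have hq := dd_hh δ hδ (ee i) x
  rw [h2, h3] at hq
  have k3 : dd (ee i) (hh δ) x = 0 := by
    simp only [mul_zero, add_zero] at hq
    rcases mul_eq_zero.mp hq with h | h
    · exact h
    · exact absurd h (qq_pos x).ne'
  funext j
  fin_cases j
  · exact dd_FF0 δ (ee i) x
  · exact dd_FF1 δ (ee i) x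
  · have := dd_FF2 δ (ee i) x
    rw [k3, h2] at this
    simp only [zero_mul, mul_zero, add_zero] at this
    exact this.trans h2.symm
  · have := dd_FF3 δ (ee i) x
    rw [k3, h3] at this
    simp only [zero_mul, mul_zero, add_zero] at this
    exact this.trans h3.symm

lemma FF_norm (δ : ℝ) (x : E) :
    (FF δ x 2 ^ 2 + FF δ x 3 ^ 2) * qq x = δ ^ 2 * (x 2 ^ 2 + x 3 ^ 2) := by
  have h : FF δ x 2 = hh δ x * x 2 := rfl
  have h' : FF δ x 3 = hh δ x * x 3 := rfl
  rw [h, h', ← hh_sq δ x]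
  ring

lemma FF_lt (δ : ℝ) (hδ : 0 < δ) (x : E) : FF δ x 2 ^ 2 + FF δ x 3 ^ 2 < δ ^ 2 := by
  have h := FF_norm δ x
  have hq := qq_pos x
  by_contra hc
  push Not at hc
  have : δ ^ 2 * qq x ≤ δ ^ 2 * (x 2 ^ 2 + x 3 ^ 2) := by
    rw [← h]; exact mul_le_mul_of_nonneg_right hc hq.le
  unfold qq at this
  nlinarith [sq_nonneg δ, pow_pos hδ 2]

lemma FF_pos (δ : ℝ) (hδ : 0 < δ) (x : E) (hx : x 2 ≠ 0 ∨ x 3 ≠ 0) :
    0 < FF δ x 2 ^ 2 + FF δ x 3 ^ 2 := by
  have h := FF_norm δ x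
  have hq := qq_pos x
  have h2 : 0 < x 2 ^ 2 + x 3 ^ 2 := by
    rcases hx with h | h
    · have := pow_pos (abs_pos.mpr h) 2
      rw [sq_abs] at this
      nlinarith [sq_nonneg (x 3)]
    · have := pow_pos (abs_pos.mpr h) 2
      rw [sq_abs] at this
      nlinarith [sq_nonneg (x 2)]
  have h3 : 0 < (FF δ x 2 ^ 2 + FF δ x 3 ^ 2) * qq x := by
    rw [h]; positivity
  exact (mul_pos_iff_of_pos_right hq).mp h3

lemma FF_per (δ : ℝ) (i : Fin 4) (hi : i.val < 2) (x : E) :
    FF δ (x + ee i) = FF δ x + ee i := by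
  have h2 : (ee i : E) 2 = 0 := by
    have : i ≠ 2 := by rintro rfl; simp at hi
    simp [ee, this.symm]
  have h3 : (ee i : E) 3 = 0 := by
    have : i ≠ 3 := by rintro rfl; simp at hi
    simp [ee, this.symm]
  have hh' : hh δ (x + ee i) = hh δ x := by
    unfold hh qq
    simp only [Pi.add_apply, h2, h3, add_zero]
  funext j
  fin_cases j
  · rfl
  · rfl
  · show hh δ (x + ee i) * (x + ee i : E) 2 = hh δ x * x 2 + (ee i : E) 2
    rw [hh', Pi.add_apply, h2]; ring
  · show hh δ (x + ee i) * (x + ee i : E) 3 = hh δ x * x 3 + (ee i : E) 3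
    rw [hh', Pi.add_apply, h3]; ring

end Pool.Agent.helper26.Torus
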