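import Pool.Agent.helper26.Torus.Pull

/-! The curvature tensor in coordinates as a multilinear form. -/

set_option autoImplicit false

namespace Pool.Agent.helper26.Torus

/-- coordinate vectors -/
noncomputable abbrev ee (i : Fin 4) : E := Pi.single i 1

/-- a function on `E` which is linear, in coordinate form -/
def Lin (f : E → ℝ) : Prop := ∀ u : E, ∑ i, f (ee i) * u i = f u

lemma eq_sum (u : E) : u = ∑ i, u i • ee i := by
  funext j
  simp [ee, Finset.sum_apply, Pi.single_apply]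

lemma Lin.of (f : E → ℝ) (g : E →L[ℝ] ℝ) (h : ∀ u, f u = g u) : Lin f := by
  intro u
  conv_rhs => rw [h, eq_sum u, map_sum]
  apply Finset.sum_congr rfl
  intro i _
  rw [h, map_smul, smul_eq_mul, mul_comm]

lemma Lin.add {f g : E → ℝ} (hf : Lin f) (hg : Lin g) : Lin (fun u => f u + g u) := by
  intro u
  simp only [add_mul, Finset.sum_add_distrib]
  rw [hf u, hg u]

lemma Lin.sub {f g : E → ℝ} (hf : Lin f) (hg : Lin g) : Lin (fun u => f u - g u) := by
  intro u
  simp only [sub_mul, Finset.sum_sub_distrib]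
  rw [hf u, hg u]

lemma Lin.const_mul {f : E → ℝ} (hf : Lin f) (c : ℝ) : Lin (fun u => c * f u) := by
  intro u
  simp only [mul_assoc, ← Finset.mul_sum]
  rw [hf u]

lemma Lin.mul_const {f : E → ℝ} (hf : Lin f) (c : ℝ) : Lin (fun u => f u * c) := by
  intro u
  have h := hf u
  simp only at h ⊢
  rw [← h, Finset.sum_mul]
  apply Finset.sum_congr rfl
  intro i _
  ring

lemma Lin.div_const {f : E → ℝ} (hf : Lin f) (c : ℝ) : Lin (fun u => f u / c) := by
  simp only [div_eq_mul_inv]
  exact hf.mul_const _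

lemma Lin.sum {ι : Type*} (s : Finset ι) {f : ι → E → ℝ} (hf : ∀ a ∈ s, Lin (f a)) :
    Lin (fun u => ∑ a ∈ s, f a u) := by
  intro u
  simp only [Finset.sum_mul]
  rw [Finset.sum_comm]
  exact Finset.sum_congr rfl fun a ha => hf a ha u

lemma lin4 (T : E → E → E → E → ℝ) (h1 : ∀ b c d, Lin (fun a => T a b c d))
    (h2 : ∀ a c d, Lin (fun b => T a b c d)) (h3 : ∀ a b d, Lin (fun c => T a b c d))
    (h4 : ∀ a b c, Lin (fun d => T a b c d)) (u v w z : E) :
    ∑ i, ∑ k, ∑ l, ∑ m, T (ee i) (ee k) (ee l) (ee m) * u i * v k * w l * z m = T u v w z := by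
  have e4 : ∀ i k l : Fin 4, ∑ m, T (ee i) (ee k) (ee l) (ee m) * u i * v k * w l * z m =
      T (ee i) (ee k) (ee l) z * u i * v k * w l := by
    intro i k l
    have := h4 (ee i) (ee k) (ee l) z
    simp only at this
    rw [← this, Finset.sum_mul, Finset.sum_mul, Finset.sum_mul]
    apply Finset.sum_congr rfl
    intro m _
    ring
  have e3 : ∀ i k : Fin 4, ∑ l, T (ee i) (ee k) (ee l) z * u i * v k * w l =
      T (ee i) (ee k) w z * u i * v k := by
    intro i k
    have := h3 (ee i) (ee k) z w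
    simp only at this
    rw [← this, Finset.sum_mul, Finset.sum_mul]
    apply Finset.sum_congr rfl
    intro m _
    ring
  have e2 : ∀ i : Fin 4, ∑ k, T (ee i) (ee k) w z * u i * v k =
      T (ee i) v w z * u i := by
    intro i
    have := h2 (ee i) w z v
    simp only at this
    rw [← this, Finset.sum_mul]
    apply Finset.sum_congr rfl
    intro m _
    ring
  have e1 := h1 v w z u
  simp only at e1
  rw [← e1]
  apply Finset.sum_congr rfl
  intro i _
  rw [← e2]
  apply Finset.sum_congr rfl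
  intro k _
  rw [← e3]
  apply Finset.sum_congr rfl
  intro l _
  rw [← e4]

section D2

variable {G : E → Bil}

/-- the metric coefficients -/
noncomputable def gco (G : E → Bil) (i j : Fin 4) : E → ℝ := sc G (ee i) (ee j)

/-- Christoffel symbols, first kind, as in the frozen statement -/
noncomputable def Chr (G : E → Bil) (a k l : Fin 4) (x : E) : ℝ :=
  (fderiv ℝ (gco G l a) x (Pi.single k 1) + fderiv ℝ (gco G k a) x (Pi.single l 1)
          - fderiv ℝ (gco G k l) x (Pi.single a 1)) / 2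

/-- curvature components as in the frozen statement -/
noncomputable def Rie (G : E → Bil) (i k l m : Fin 4) (x : E) : ℝ :=
  (fderiv ℝ (fun y => fderiv ℝ (gco G i m) y (Pi.single k 1)) x (Pi.single l 1)
            + fderiv ℝ (fun y => fderiv ℝ (gco G k l) y (Pi.single i 1)) x (Pi.single m 1)
            - fderiv ℝ (fun y => fderiv ℝ (gco G i l) y (Pi.single k 1)) x (Pi.single m 1)
            - fderiv ℝ (fun y => fderiv ℝ (gco G k m) y (Pi.single i 1)) x (Pi.single l 1)) / 2
          + ∑ a, ∑ b, (Matrix.of fun p q => gco G p q x)⁻¹ a b *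
              (Chr G a k l x * Chr G b i m x - Chr G a k m x * Chr G b i l x)

lemma Chr_eq (G : E → Bil) (a k l : Fin 4) (x : E) :
    Chr G a k l x = Gam G x (ee a) (ee k) (ee l) := rfl

/-- the inverse matrix form -/
noncomputable def ginv (G : E → Bil) (x : E) (a b : Fin 4) : ℝ :=
  (Matrix.of fun p q => gco G p q x)⁻¹ a b

/-- the curvature tensor as a 4-linear form -/
noncomputable def Rf (G : E → Bil) (x : E) (a b c d : E) : ℝ :=
  (dd c (dd b (sc G a d)) x + dd d (dd a (sc G b c)) x - dd d (dd b (sc G a c)) x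
    - dd c (dd a (sc G b d)) x) / 2
  + ∑ p, ∑ q, ginv G x p q *
      (Gam G x (ee p) b c * Gam G x (ee q) a d - Gam G x (ee p) b d * Gam G x (ee q) a c)

lemma Rie_eq (G : E → Bil) (i k l m : Fin 4) (x : E) :
    Rie G i k l m x = Rf G x (ee i) (ee k) (ee l) (ee m) := rfl

lemma lin_dd {f : E → ℝ} (x : E) : Lin (fun w => dd w f x) :=
  Lin.of _ (fderiv ℝ f x) fun _ => rfl

lemma lin_sc1 (hG : Differentiable ℝ G) (w v x : E) : Lin (fun a => dd w (sc G a v) x) := by
  refine Lin.of _ ((fderiv ℝ G x w).flip v) fun a => ?_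
  rw [dd_sc hG]; rfl

lemma lin_sc2 (hG : Differentiable ℝ G) (w v x : E) : Lin (fun a => dd w (sc G v a) x) := by
  refine Lin.of _ ((fderiv ℝ G x w) v) fun a => ?_
  rw [dd_sc hG]; rfl

lemma lin_gam1 (hG : Differentiable ℝ G) (x u v : E) : Lin (fun a => Gam G x a u v) :=
  (((lin_sc2 hG u v x).add (lin_sc2 hG v u x)).sub (lin_dd x)).div_const 2

lemma lin_gam2 (hG : Differentiable ℝ G) (x a v : E) : Lin (fun u => Gam G x a u v) :=
  (((lin_dd x).add (lin_sc1 hG v a x)).sub (lin_sc1 hG a v x)).div_const 2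

lemma lin_gam3 (hG : Differentiable ℝ G) (x a u : E) : Lin (fun v => Gam G x a u v) :=
  (((lin_sc1 hG u a x).add (lin_dd x)).sub (lin_sc2 hG a u x)).div_const 2

lemma lin_d21 (hG : ∀ n : ℕ, ContDiff ℝ n G) (w w' v x : E) :
    Lin (fun a => dd w' (dd w (sc G a v)) x) := by
  refine Lin.of _ ((dd w' (dd w G) x).flip v) fun a => ?_
  rw [dd_dd_sc hG]; rfl

lemma lin_d22 (hG : ∀ n : ℕ, ContDiff ℝ n G) (w w' v x : E) :
    Lin (fun a => dd w' (dd w (sc G v a)) x) := by
  refine Lin.of _ ((dd w' (dd w G) x) v) fun a => ?_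
  rw [dd_dd_sc hG]

lemma lin_d23 {f : E → ℝ} (w x : E) :
    Lin (fun w' => dd w' (dd w f) x) := lin_dd x

lemma lin_d24 {f : E → ℝ} (hf : ∀ n : ℕ, ContDiff ℝ n f) (w' x : E) :
    Lin (fun w => dd w' (dd w f) x) := by
  have : (fun w => dd w' (dd w f) x) = fun w => dd w (dd w' f) x := by
    funext w
    rw [dd_comm hf]
  rw [this]
  exact lin_dd x

lemma Rf_lin (hG : ∀ n : ℕ, ContDiff ℝ n G) (x : E) (u v w z : E) :
    ∑ i, ∑ k, ∑ l, ∑ m, Rie G i k l m x * u i * v k * w l * z m = Rf G x u v w z := by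
  have dG := dd_diff hG
  have hsc := fun a b => sc_contDiff hG a b
  simp only [Rie_eq]
  apply lin4
  · intro b c d
    refine Lin.add (Lin.div_const (((lin_d21 hG _ _ _ _).add (lin_d24 (hsc _ _) _ _)).sub
      (lin_d21 hG _ _ _ _) |>.sub (lin_d24 (hsc _ _) _ _)) 2)
      (Lin.sum _ fun p _ => Lin.sum _ fun q _ => Lin.const_mul
        (((lin_gam2 dG _ _ _).const_mul _).sub ((lin_gam2 dG _ _ _).const_mul _)) _)
  · intro a c d
    refine Lin.add (Lin.div_const (((lin_d24 (hsc _ _) _ _).add (lin_d21 hG _ _ _ _)).sub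
      (lin_d24 (hsc _ _) _ _) |>.sub (lin_d21 hG _ _ _ _)) 2)
      (Lin.sum _ fun p _ => Lin.sum _ fun q _ => Lin.const_mul
        (((lin_gam2 dG _ _ _).mul_const _).sub ((lin_gam2 dG _ _ _).mul_const _)) _)
  · intro a b d
    refine Lin.add (Lin.div_const (((lin_d23 _ _).add (lin_d22 hG _ _ _ _)).sub
      (lin_d22 hG _ _ _ _) |>.sub (lin_d23 _ _)) 2)
      (Lin.sum _ fun p _ => Lin.sum _ fun q _ => Lin.const_mul
        (((lin_gam3 dG _ _ _).mul_const _).sub ((lin_gam3 dG _ _ _).const_mul _)) _)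
  · intro a b c
    refine Lin.add (Lin.div_const (((lin_d22 hG _ _ _ _).add (lin_d23 _ _)).sub
      (lin_d23 _ _) |>.sub (lin_d22 hG _ _ _ _)) 2)
      (Lin.sum _ fun p _ => Lin.sum _ fun q _ => Lin.const_mul
        (((lin_gam3 dG _ _ _).const_mul _).sub ((lin_gam3 dG _ _ _).mul_const _)) _)

end D2

end Pool.Agent.helper26.Torus
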