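import Pool.Agent.helper26.Torus.Curv

/-! Inverse metric. -/

set_option autoImplicit false

namespace Pool.Agent.helper26.Torus

/-- Gram matrix at `x` -/
noncomputable def gmat (G : E → Bil) (x : E) : Matrix (Fin 4) (Fin 4) ℝ :=
  Matrix.of fun p q => gco G p q x

lemma gmat_apply (G : E → Bil) (x : E) (p q : Fin 4) : gmat G x p q = G x (ee p) (ee q) := rfl

lemma ginv_eq (G : E → Bil) (x : E) (p q : Fin 4) : ginv G x p q = (gmat G x)⁻¹ p q := rfl

lemma lin_G1 (G : E → Bil) (x v : E) : Lin (fun u => G x u v) :=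
  Lin.of _ ((G x).flip v) fun _ => rfl

lemma lin_G2 (G : E → Bil) (x v : E) : Lin (fun u => G x v u) :=
  Lin.of _ (G x v) fun _ => rfl

lemma mulVec_gmat (G : E → Bil) (x : E) (v : E) (p : Fin 4) :
    (gmat G x).mulVec v p = G x (ee p) v := by
  have := lin_G2 G x (ee p) v
  simp only at this
  rw [← this]
  rfl

lemma gmat_det {G : E → Bil} {x : E} (hpos : ∀ v : E, v ≠ 0 → 0 < G x v v) :
    IsUnit (gmat G x).det := by
  rw [isUnit_iff_ne_zero]
  intro h
  obtain ⟨v, hv, hv2⟩ := Matrix.exists_mulVec_eq_zero_iff.mpr h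
  have h2 := hpos v hv
  have h3 := lin_G1 G x v v
  simp only at h3
  rw [← h3] at h2
  have h4 : ∀ p, G x (ee p) v = 0 := by
    intro p
    rw [← mulVec_gmat, hv2]; rfl
  simp [h4] at h2

lemma ginv_sum {G : E → Bil} {x : E} (hs : ∀ u v, G x u v = G x v u)
    (hpos : ∀ v : E, v ≠ 0 → 0 < G x v v) (P Q : E) :
    ∑ p, ∑ q, ginv G x p q * (G x P (ee p) * G x Q (ee q)) = G x P Q := by
  have hdet := gmat_det hpos
  have h1 : ∀ p, ∑ q, ginv G x p q * G x Q (ee q) = Q p := by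
    intro p
    have h2 : (gmat G x)⁻¹.mulVec ((gmat G x).mulVec Q) = Q := by
      rw [Matrix.mulVec_mulVec, Matrix.nonsing_inv_mul _ hdet, Matrix.one_mulVec]
    have h3 := congrFun h2 p
    have h5 : (gmat G x)⁻¹.mulVec ((gmat G x).mulVec Q) p =
      ∑ q, (gmat G x)⁻¹ p q * ((gmat G x).mulVec Q) q := rfl
    rw [h3] at h5
    rw [h5]
    apply Finset.sum_congr rfl
    intro q _
    rw [mulVec_gmat, hs Q (ee q)]
    rfl
  have h4 : ∀ p, ∑ q, ginv G x p q * (G x P (ee p) * G x Q (ee q)) = G x P (ee p) * Q p := by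
    intro p
    rw [← h1 p, Finset.mul_sum]
    apply Finset.sum_congr rfl
    intro q _
    ring
  rw [Finset.sum_congr rfl fun p _ => h4 p]
  exact lin_G2 G x P Q

lemma exists_sharp {G : E → Bil} {x : E} (hs : ∀ u v, G x u v = G x v u)
    (hpos : ∀ v : E, v ≠ 0 → 0 < G x v v) (f : E → ℝ) (hf : Lin f) :
    ∃ P : E, ∀ a, G x P a = f a := by
  have hdet := gmat_det hpos
  refine ⟨(gmat G x)⁻¹.mulVec (fun i => f (ee i)), fun a => ?_⟩
  have h1 : ∀ p, G x (ee p) ((gmat G x)⁻¹.mulVec (fun i => f (ee i))) = f (ee p) := by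
    intro p
    rw [← mulVec_gmat, Matrix.mulVec_mulVec, Matrix.mul_nonsing_inv _ hdet, Matrix.one_mulVec]
  have h2 := lin_G1 G x ((gmat G x)⁻¹.mulVec (fun i => f (ee i))) a
  simp only at h2
  rw [hs, ← h2, ← hf a]
  exact Finset.sum_congr rfl fun p _ => by rw [h1]

/-- the curvature form `R(u,v,u,v)` in terms of the connection vectors -/
lemma Rf_eq {G : E → Bil} {x : E} (hs : ∀ u v, G x u v = G x v u)
    (hpos : ∀ v : E, v ≠ 0 → 0 < G x v v) (u v Puv Pvu Puu Pvv : E)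
    (h1 : ∀ a, G x Puv a = Gam G x a u v) (h1' : ∀ a, G x Pvu a = Gam G x a v u)
    (h2 : ∀ a, G x Puu a = Gam G x a u u)
    (h3 : ∀ a, G x Pvv a = Gam G x a v v) :
    Rf G x u v u v = Sec2 G x u v + G x Pvu Puv - G x Pvv Puu := by
  unfold Rf Sec2
  rw [← ginv_sum hs hpos Pvu Puv, ← ginv_sum hs hpos Pvv Puu]
  rw [add_sub_assoc (_ / 2 : ℝ), ← Finset.sum_sub_distrib]
  refine congrArg _ ?_
  apply Finset.sum_congr rfl
  intro p _
  rw [← Finset.sum_sub_distrib]
  apply Finset.sum_congr rfl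
  intro q _
  rw [h1, h1', h2, h3]
  ring

lemma Gam_symm {G : E → Bil} (hs : ∀ x u v, G x u v = G x v u) (x a u v : E) :
    Gam G x a u v = Gam G x a v u := by
  unfold Gam
  have : sc G u v = sc G v u := by
    funext y
    exact hs y u v
  rw [this]
  ring

end Pool.Agent.helper26.Torus
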