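import Mathlib

/-! Coordinate curvature (as in the frozen statement S14023) and its behaviour under pullback. -/

set_option autoImplicit false

namespace Pool.Agent.helper26.Torus

abbrev E := Fin 4 → ℝ

/-- bilinear forms on `E` -/
abbrev Bil := E →L[ℝ] E →L[ℝ] ℝ

section Abstract

lemma fderiv_apply2 {G : E → Bil} {A C : E → E} {x : E}
    (hG : DifferentiableAt ℝ G x)
    (hA : DifferentiableAt ℝ A x) (hC : DifferentiableAt ℝ C x) (w : E) :
    fderiv ℝ (fun y => G y (A y) (C y)) x w =
      fderiv ℝ G x w (A x) (C x) + G x (fderiv ℝ A x w) (C x)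
        + G x (A x) (fderiv ℝ C x w) := by
  have h2 := (hG.hasFDerivAt.clm_apply hA.hasFDerivAt).clm_apply hC.hasFDerivAt
  rw [h2.fderiv]
  simp only [add_apply, ContinuousLinearMap.comp_apply,
    ContinuousLinearMap.flip_apply]
  ring

/-- directional derivative of the function `f` in direction `w` -/
noncomputable def dd {V : Type*} [NormedAddCommGroup V] [NormedSpace ℝ V] (w : E) (f : E → V) : E → V :=
  fun x => fderiv ℝ f x w

lemma dd_contDiff {V : Type*} [NormedAddCommGroup V] [NormedSpace ℝ V] {f : E → V}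
    (hf : ∀ n : ℕ, ContDiff ℝ n f) (w : E) : ∀ n : ℕ, ContDiff ℝ n (dd w f) := by
  intro n
  exact ((hf (n+1)).fderiv_right (m := n) (by norm_cast)).clm_apply contDiff_const

lemma dd_diff {V : Type*} [NormedAddCommGroup V] [NormedSpace ℝ V] {f : E → V}
    (hf : ∀ n : ℕ, ContDiff ℝ n f) : Differentiable ℝ f :=
  (hf 1).differentiable (by norm_num)

lemma dd_comm {V : Type*} [NormedAddCommGroup V] [NormedSpace ℝ V] {f : E → V}
    (hf : ∀ n : ℕ, ContDiff ℝ n f) (w w' : E) : dd w (dd w' f) = dd w' (dd w f) := by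
  funext x
  have h2 : ContDiffAt ℝ 2 f x := (hf 2).contDiffAt
  have hsym := h2.isSymmSndFDerivAt (by simp)
  have hd : DifferentiableAt ℝ (fderiv ℝ f) x := 
    ((hf 2).fderiv_right (m := 1) (by norm_num)).differentiable (by norm_num) x
  have e1 : ∀ a b : E, dd a (dd b f) x = fderiv ℝ (fderiv ℝ f) x a b := by
    intro a b
    unfold dd
    rw [fderiv_clm_apply hd (differentiableAt_const b)]
    simp
  rw [e1, e1]
  exact hsym w w'

/-- scalar components of a field of bilinear forms -/
noncomputable def sc (G : E → Bil) (u v : E) : E → ℝ := fun x => G x u v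

/-- Christoffel symbols of the first kind -/
noncomputable def Gam (G : E → Bil) (x a u v : E) : ℝ :=
  (dd u (sc G v a) x + dd v (sc G u a) x - dd a (sc G u v) x) / 2

/-- second-derivative part of the sectional curvature form -/
noncomputable def Sec2 (G : E → Bil) (x u v : E) : ℝ :=
  (dd u (dd v (sc G u v)) x + dd v (dd u (sc G v u)) x - dd v (dd v (sc G u u)) x
    - dd u (dd u (sc G v v)) x) / 2

/-- the pullback -/
noncomputable def pull (G : E → Bil) (F : E → E) : E → Bil :=
  fun x => (G (F x)).bilinearComp (fderiv ℝ F x) (fderiv ℝ F x)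

lemma pull_apply (G : E → Bil) (F : E → E) (x u v : E) :
    pull G F x u v = G (F x) (fderiv ℝ F x u) (fderiv ℝ F x v) := rfl

lemma sc_contDiff {G : E → Bil} (hG : ∀ n : ℕ, ContDiff ℝ n G) (u v : E) :
    ∀ n : ℕ, ContDiff ℝ n (sc G u v) := by
  intro n
  exact ((hG n).clm_apply contDiff_const).clm_apply contDiff_const

lemma dd_sc {G : E → Bil} (hG : Differentiable ℝ G) (u v w x : E) :
    dd w (sc G u v) x = dd w G x u v := by
  unfold dd sc
  rw [fderiv_apply2 (hG x) (differentiableAt_const u) (differentiableAt_const v)]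
  simp

lemma dd_dd_sc {G : E → Bil} (hG : ∀ n : ℕ, ContDiff ℝ n G) (u v w w' x : E) :
    dd w' (dd w (sc G u v)) x = dd w' (dd w G) x u v := by
  have h1 : dd w (sc G u v) = sc (dd w G) u v := by
    funext y
    exact dd_sc (dd_diff hG) u v w y
  rw [h1, dd_sc (dd_diff (dd_contDiff hG w))]

/-- composition -/
lemma dd_comp {V : Type*} [NormedAddCommGroup V] [NormedSpace ℝ V] {f : E → V} {F : E → E}
    (hf : Differentiable ℝ f) (hF : Differentiable ℝ F) (w x : E) :
    dd w (fun y => f (F y)) x = dd (dd w F x) f (F x) := by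
  unfold dd
  have := fderiv_comp x (hf (F x)) (hF x)
  have h2 : (fun y => f (F y)) = f ∘ F := rfl
  rw [h2, this]
  rfl

/-- `dd` is linear in direction -/
lemma dd_dd_comp {V : Type*} [NormedAddCommGroup V] [NormedSpace ℝ V] {f : E → V} {F : E → E}
    (hf : ∀ n : ℕ, ContDiff ℝ n f) (hF : ∀ n : ℕ, ContDiff ℝ n F) (w w' x : E) :
    dd w' (dd w (fun y => f (F y))) x =
      dd (dd w' F x) (dd (dd w F x) f) (F x) + dd (dd w' (dd w F) x) f (F x) := by
  have h1 : dd w (fun y => f (F y)) = fun y => fderiv ℝ f (F y) (dd w F y) := by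
    funext y
    rw [dd_comp (dd_diff hf) (dd_diff hF)]
    rfl
  rw [h1]
  have hdf : Differentiable ℝ (fderiv ℝ f) :=
    ((hf 2).fderiv_right (m := 1) (by norm_num)).differentiable (by norm_num)
  have hA : DifferentiableAt ℝ (fun y => fderiv ℝ f (F y)) x :=
    (hdf (F x)).comp x (dd_diff hF x)
  have hB : DifferentiableAt ℝ (dd w F) x := dd_diff (dd_contDiff hF w) x
  unfold dd at hB ⊢
  rw [fderiv_clm_apply hA hB]
  have h3 : fderiv ℝ (fun y => fderiv ℝ f (F y)) x =
      (fderiv ℝ (fderiv ℝ f) (F x)).comp (fderiv ℝ F x) := fderiv_comp x (hdf (F x)) (dd_diff hF x)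
  rw [h3]
  have h4 : ∀ b : E, fderiv ℝ (fun y => fderiv ℝ f y b) (F x) (fderiv ℝ F x w') =
      fderiv ℝ (fderiv ℝ f) (F x) (fderiv ℝ F x w') b := by
    intro b
    rw [fderiv_clm_apply (hdf (F x)) (differentiableAt_const b)]
    simp
  rw [h4]
  simp only [add_apply, ContinuousLinearMap.comp_apply, ContinuousLinearMap.flip_apply]
  abel

lemma dd_apply2 {H : E → Bil} {A C : E → E}
    (hH : Differentiable ℝ H) (hA : Differentiable ℝ A) (hC : Differentiable ℝ C) (w x : E) :
    dd w (fun y => H y (A y) (C y)) x =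
      dd w H x (A x) (C x) + H x (dd w A x) (C x) + H x (A x) (dd w C x) :=
  fderiv_apply2 (hH x) (hA x) (hC x) w

lemma dd_add3 {f g h : E → ℝ} (hf : Differentiable ℝ f) (hg : Differentiable ℝ g)
    (hh : Differentiable ℝ h) (w x : E) :
    dd w (fun y => f y + g y + h y) x = dd w f x + dd w g x + dd w h x := by
  have h : HasFDerivAt (fun y => f y + g y + h y) (fderiv ℝ f x + fderiv ℝ g x + fderiv ℝ h x) x :=
    ((hf x).hasFDerivAt.add (hg x).hasFDerivAt).add (hh x).hasFDerivAt
  unfold dd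
  rw [h.fderiv]
  simp

lemma apply2_diff {H : E → Bil} {A C : E → E}
    (hH : Differentiable ℝ H) (hA : Differentiable ℝ A) (hC : Differentiable ℝ C) :
    Differentiable ℝ (fun y => H y (A y) (C y)) :=
  (hH.clm_apply hA).clm_apply hC

lemma dd_dd_apply2 {H : E → Bil} {A C : E → E}
    (hH : ∀ n : ℕ, ContDiff ℝ n H) (hA : ∀ n : ℕ, ContDiff ℝ n A) (hC : ∀ n : ℕ, ContDiff ℝ n C)
    (w w' x : E) :
    dd w' (dd w (fun y => H y (A y) (C y))) x =
      (dd w' (dd w H) x (A x) (C x) + dd w H x (dd w' A x) (C x) + dd w H x (A x) (dd w' C x))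
      + (dd w' H x (dd w A x) (C x) + H x (dd w' (dd w A) x) (C x)
          + H x (dd w A x) (dd w' C x))
      + (dd w' H x (A x) (dd w C x) + H x (dd w' A x) (dd w C x)
          + H x (A x) (dd w' (dd w C) x)) := by
  have h1 : dd w (fun y => H y (A y) (C y)) = fun y => 
      dd w H y (A y) (C y) + H y (dd w A y) (C y) + H y (A y) (dd w C y) := by
    funext y
    exact dd_apply2 (dd_diff hH) (dd_diff hA) (dd_diff hC) w y
  have dH := dd_diff hH
  have dA := dd_diff hA
  have dC := dd_diff hC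
  have dH' := dd_diff (dd_contDiff hH w)
  have dA' := dd_diff (dd_contDiff hA w)
  have dC' := dd_diff (dd_contDiff hC w)
  rw [h1, dd_add3 (apply2_diff dH' dA dC) (apply2_diff dH dA' dC) (apply2_diff dH dA dC'),
    dd_apply2 dH' dA dC, dd_apply2 dH dA' dC, dd_apply2 dH dA dC']

lemma dd_symm {G : E → Bil} (hG : Differentiable ℝ G) (hs : ∀ x u v, G x u v = G x v u)
    (w x u v : E) : dd w G x u v = dd w G x v u := by
  rw [← dd_sc hG, ← dd_sc hG]
  have : sc G u v = sc G v u := by
    funext y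
    exact hs y u v
  rw [this]

/-- **Tensoriality**: the sectional curvature form of a pulled back metric. -/
theorem sec_pull {G : E → Bil} {F : E → E} (hG : ∀ n : ℕ, ContDiff ℝ n G)
    (hF : ∀ n : ℕ, ContDiff ℝ n F) (hs : ∀ x u v, G x u v = G x v u) (x u v : E)
    (Puv Puu Pvv : E)
    (h1 : ∀ a, G (F x) Puv a = Gam G (F x) a (dd u F x) (dd v F x))
    (h2 : ∀ a, G (F x) Puu a = Gam G (F x) a (dd u F x) (dd u F x))
    (h3 : ∀ a, G (F x) Pvv a = Gam G (F x) a (dd v F x) (dd v F x)) :
    Sec2 (pull G F) x u v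
      + G (F x) (Puv + dd u (dd v F) x) (Puv + dd u (dd v F) x)
      - G (F x) (Pvv + dd v (dd v F) x) (Puu + dd u (dd u F) x)
    = Sec2 G (F x) (dd u F x) (dd v F x) + G (F x) Puv Puv - G (F x) Pvv Puu := by
  have dG := dd_diff hG
  have dF := dd_diff hF
  have hH : ∀ n : ℕ, ContDiff ℝ n (fun y => G (F y)) := fun n => (hG n).comp (hF n)
  have key : ∀ a b c d : E, dd c (dd d (sc (pull G F) a b)) x =
      dd c (dd d (fun y => (fun y => G (F y)) y (dd a F y) (dd b F y))) x := by
    intro a b c d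
    rfl
  have key2 : ∀ a b c d : E, dd c (dd d (sc (pull G F) a b)) x =
      (dd (dd c F x) (dd (dd d F x) G) (F x) (dd a F x) (dd b F x)
        + dd (dd c (dd d F) x) G (F x) (dd a F x) (dd b F x)
        + dd (dd d F x) G (F x) (dd c (dd a F) x) (dd b F x)
        + dd (dd d F x) G (F x) (dd a F x) (dd c (dd b F) x))
      + (dd (dd c F x) G (F x) (dd d (dd a F) x) (dd b F x)
          + G (F x) (dd c (dd d (dd a F)) x) (dd b F x)
          + G (F x) (dd d (dd a F) x) (dd c (dd b F) x))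
      + (dd (dd c F x) G (F x) (dd a F x) (dd d (dd b F) x)
          + G (F x) (dd c (dd a F) x) (dd d (dd b F) x)
          + G (F x) (dd a F x) (dd c (dd d (dd b F)) x)) := by
    intro a b c d
    rw [key, dd_dd_apply2 hH (dd_contDiff hF a) (dd_contDiff hF b), dd_dd_comp hG hF,
      dd_comp dG dF, dd_comp dG dF]
    simp only [add_apply]
  have cF : dd v (dd u F) = dd u (dd v F) := dd_comm hF v u
  have hD : ∀ w a b, dd w G (F x) a b = dd w G (F x) b a := fun w a b => dd_symm dG hs w (F x) a b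
  have e1 := key2 u v u v
  have e2 := key2 v u v u
  have e3 := key2 u u v v
  have e4 := key2 v v u u
  have t2 : dd v (dd u (dd u F)) = dd u (dd u (dd v F)) := by
    rw [dd_comm (dd_contDiff hF u) v u, cF]
  have t3 : dd v (dd u (dd v F)) = dd u (dd v (dd v F)) := by
    rw [dd_comm (dd_contDiff hF v) v u]
  have f1 := dd_dd_sc hG (dd u F x) (dd v F x) (dd v F x) (dd u F x) (F x)
  have f2 := dd_dd_sc hG (dd v F x) (dd u F x) (dd u F x) (dd v F x) (F x)
  have f3 := dd_dd_sc hG (dd u F x) (dd u F x) (dd v F x) (dd v F x) (F x)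
  have f4 := dd_dd_sc hG (dd v F x) (dd v F x) (dd u F x) (dd u F x) (F x)
  unfold Sec2
  rw [e1, e2, e3, e4, f1, f2, f3, f4]
  simp only [t2, t3, cF]
  have a1 := h1 (dd u (dd v F) x)
  have a2 := h2 (dd v (dd v F) x)
  have a3 := h3 (dd u (dd u F) x)
  unfold Gam at a1 a2 a3
  simp only [dd_sc dG] at a1 a2 a3
  simp only [map_add, add_apply]
  rw [hs (F x) (dd u (dd v F) x) Puv, hs (F x) (dd v (dd v F) x) Puu, a1, a2, a3]
  have b1 := hs (F x) (dd u (dd u (dd v F)) x) (dd v F x)
  have b2 := hs (F x) (dd u (dd v (dd v F)) x) (dd u F x)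
  have b3 := hs (F x) (dd u (dd u F) x) (dd v (dd v F) x)
  have b4 := hD (dd u F x) (dd u (dd v F) x) (dd v F x)
  have b5 := hD (dd v F x) (dd u (dd v F) x) (dd u F x)
  have b6 := hD (dd v F x) (dd u (dd u F) x) (dd v F x)
  have b7 := hD (dd u F x) (dd v (dd v F) x) (dd u F x)
  have b8 := hD (dd u (dd v F) x) (dd u F x) (dd v F x)
  have b9 := hD (dd u F x) (dd v F x) (dd u (dd v F) x)
  linarith

end Abstract

end Pool.Agent.helper26.Torus
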