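import Pool.Agent.helper26.Torus.Chart

/-! Reduction of S14023 to a metric near the zero section. -/

set_option autoImplicit false

namespace Pool.Agent.helper26.Torus

lemma pull_contDiff {G : E → Bil} {F : E → E} (hG : ∀ n : ℕ, ContDiff ℝ n G)
    (hF : ∀ n : ℕ, ContDiff ℝ n F) : ∀ n : ℕ, ContDiff ℝ n (pull G F) := by
  intro n
  have hDF : ContDiff ℝ n (fderiv ℝ F) := (hF (n+1)).fderiv_right (m := n) (by norm_cast)
  have hGF : ContDiff ℝ n (fun x => G (F x)) := (hG n).comp (hF n)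
  rw [contDiff_clm_apply_iff]
  intro u
  rw [contDiff_clm_apply_iff]
  intro v
  exact (hGF.clm_apply (hDF.clm_apply contDiff_const)).clm_apply (hDF.clm_apply contDiff_const)

lemma pull_symm {G : E → Bil} {F : E → E} (hs : ∀ x u v, G x u v = G x v u) :
    ∀ x u v, pull G F x u v = pull G F x v u := fun x _ _ => hs (F x) _ _

lemma pull_dd {G : E → Bil} {F : E → E} (x u v : E) :
    pull G F x u v = G (F x) (dd u F x) (dd v F x) := rfl

/-- Christoffel symbols of the pullback -/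
lemma Gam_pull {G : E → Bil} {F : E → E} (hG : ∀ n : ℕ, ContDiff ℝ n G)
    (hF : ∀ n : ℕ, ContDiff ℝ n F) (hs : ∀ x u v, G x u v = G x v u) (x a u v : E) :
    Gam (pull G F) x a u v =
      Gam G (F x) (dd a F x) (dd u F x) (dd v F x) + G (F x) (dd u (dd v F) x) (dd a F x) := by
  have dG := dd_diff hG
  have dF := dd_diff hF
  have hH : ∀ n : ℕ, ContDiff ℝ n (fun y => G (F y)) := fun n => (hG n).comp (hF n)
  have key : ∀ a b c : E, dd c (sc (pull G F) a b) x =
      dd (dd c F x) G (F x) (dd a F x) (dd b F x) + G (F x) (dd c (dd a F) x) (dd b F x)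
        + G (F x) (dd a F x) (dd c (dd b F) x) := by
    intro a b c
    have h1 := dd_apply2 (dd_diff hH) (dd_diff (dd_contDiff hF a)) (dd_diff (dd_contDiff hF b)) c x
    rw [dd_comp dG dF] at h1
    exact h1
  unfold Gam
  rw [key, key, key, dd_sc dG, dd_sc dG, dd_sc dG, dd_comm hF v u, dd_comm hF a u, dd_comm hF a v]
  have b1 := hs (F x) (dd v F x) (dd u (dd a F) x)
  have b2 := hs (F x) (dd u F x) (dd v (dd a F) x)
  linarith

theorem reduce (G : E → Bil) (δ : ℝ) (hδ : 0 < δ) (hG : ∀ n : ℕ, ContDiff ℝ n G)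
    (hs : ∀ x u v, G x u v = G x v u)
    (hper : ∀ (x : E) (i : Fin 4), i.val < 2 → G (x + ee i) = G x)
    (hpos : ∀ x : E, x 2 ^ 2 + x 3 ^ 2 < δ ^ 2 → ∀ v, v ≠ 0 → 0 < G x v v)
    (hΓ : ∀ x : E, x 2 = 0 → x 3 = 0 → ∀ a, ∀ i j : Fin 4, i.val < 2 → j.val < 2 →
      Gam G x a (ee i) (ee j) = 0)
    (hflat : ∀ x : E, x 2 = 0 → x 3 = 0 → Sec2 G x (ee 0) (ee 1) = 0)
    (hK : ∀ x : E, 0 < x 2 ^ 2 + x 3 ^ 2 → x 2 ^ 2 + x 3 ^ 2 < δ ^ 2 →
      ∀ u v : E, LinearIndependent ℝ ![u, v] → ∀ Puv Puu Pvv : E,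
        (∀ a, G x Puv a = Gam G x a u v) → (∀ a, G x Puu a = Gam G x a u u) →
        (∀ a, G x Pvv a = Gam G x a v v) → 0 < Sec2 G x u v + G x Puv Puv - G x Pvv Puu) :
    ∃ g : Fin 4 → Fin 4 → (Fin 4 → ℝ) → ℝ,
    ∃ Γ : Fin 4 → Fin 4 → Fin 4 → (Fin 4 → ℝ) → ℝ,
    ∃ R : Fin 4 → Fin 4 → Fin 4 → Fin 4 → (Fin 4 → ℝ) → ℝ,
      (∀ i j : Fin 4, ∀ n : ℕ, ContDiff ℝ n (g i j)) ∧
      (∀ i j : Fin 4, ∀ x : Fin 4 → ℝ, g i j x = g j i x) ∧
      (∀ x v : Fin 4 → ℝ, v ≠ 0 → 0 < ∑ i, ∑ j, g i j x * v i * v j) ∧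
      (∀ i j : Fin 4, ∀ x : Fin 4 → ℝ,
        g i j (x + (Pi.single 0 1 : Fin 4 → ℝ)) = g i j x ∧
        g i j (x + (Pi.single 1 1 : Fin 4 → ℝ)) = g i j x) ∧
      (∀ a k l : Fin 4, ∀ x : Fin 4 → ℝ,
        Γ a k l x = (fderiv ℝ (g l a) x (Pi.single k 1) + fderiv ℝ (g k a) x (Pi.single l 1)
          - fderiv ℝ (g k l) x (Pi.single a 1)) / 2) ∧
      (∀ i k l m : Fin 4, ∀ x : Fin 4 → ℝ,
        R i k l m x =
          (fderiv ℝ (fun y => fderiv ℝ (g i m) y (Pi.single k 1)) x (Pi.single l 1)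
            + fderiv ℝ (fun y => fderiv ℝ (g k l) y (Pi.single i 1)) x (Pi.single m 1)
            - fderiv ℝ (fun y => fderiv ℝ (g i l) y (Pi.single k 1)) x (Pi.single m 1)
            - fderiv ℝ (fun y => fderiv ℝ (g k m) y (Pi.single i 1)) x (Pi.single l 1)) / 2
          + ∑ a, ∑ b, (Matrix.of fun p q => g p q x)⁻¹ a b *
              (Γ a k l x * Γ b i m x - Γ a k m x * Γ b i l x)) ∧
      (∀ x : Fin 4 → ℝ, x 2 = 0 → x 3 = 0 →
        (∀ i j n : Fin 4, i.val < 2 → j.val < 2 → 2 ≤ n.val →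
          ∑ a, (Matrix.of fun p q => g p q x)⁻¹ n a * Γ a i j x = 0) ∧
        R 0 1 0 1 x = 0) ∧
      (∀ x : Fin 4 → ℝ, (x 2 ≠ 0 ∨ x 3 ≠ 0) →
        ∀ u v : Fin 4 → ℝ, LinearIndependent ℝ ![u, v] →
          0 < ∑ i, ∑ k, ∑ l, ∑ m, R i k l m x * u i * v k * u l * v m) := by
  have hF := FF_contDiff δ
  set P := pull G (FF δ) with hP
  have hPc : ∀ n : ℕ, ContDiff ℝ n P := pull_contDiff hG hF
  have hPs : ∀ x u v, P x u v = P x v u := pull_symm hs
  have dG := dd_diff hG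
  have dF := dd_diff hF
  have hinj : ∀ x u : E, u ≠ 0 → dd u (FF δ) x ≠ 0 := by
    intro x u hu h
    exact hu (dd_FF_inj δ hδ x u h)
  have hPpos : ∀ x v : E, v ≠ 0 → 0 < P x v v := by
    intro x v hv
    exact hpos _ (FF_lt δ hδ x) _ (hinj x v hv)
  have htan2 : ∀ (x : E) (i j : Fin 4), i.val < 2 → j.val < 2 → 
      dd (ee i) (dd (ee j) (FF δ)) x = 0 := by
    intro x i j hi hj
    have : dd (ee j) (FF δ) = fun _ => ee j := by
      funext y
      exact dd_FF_tan δ j hj hδ y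
    rw [this]
    unfold dd
    simp
  -- Christoffel symbols on the torus
  have hGam0 : ∀ x : E, x 2 = 0 → x 3 = 0 → ∀ a, ∀ i j : Fin 4, i.val < 2 → j.val < 2 →
      Gam P x a (ee i) (ee j) = 0 := by
    intro x h2 h3 a i j hi hj
    have e2 : FF δ x 2 = 0 := by
      show hh δ x * x 2 = 0
      rw [h2, mul_zero]
    have e3 : FF δ x 3 = 0 := by
      show hh δ x * x 3 = 0
      rw [h3, mul_zero]
    rw [hP, Gam_pull hG hF hs, htan2 x i j hi hj, dd_FF_tan δ i hi hδ, dd_FF_tan δ j hj hδ,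
      hΓ _ e2 e3 _ i j hi hj]
    simp
  -- the curvature form
  have hRf : ∀ x u v : E, ∀ Puv Puu Pvv : E,
      (∀ a, G (FF δ x) Puv a = Gam G (FF δ x) a (dd u (FF δ) x) (dd v (FF δ) x)) →
      (∀ a, G (FF δ x) Puu a = Gam G (FF δ x) a (dd u (FF δ) x) (dd u (FF δ) x)) →
      (∀ a, G (FF δ x) Pvv a = Gam G (FF δ x) a (dd v (FF δ) x) (dd v (FF δ) x)) →
      Rf P x u v u v = Sec2 G (FF δ x) (dd u (FF δ) x) (dd v (FF δ) x) +
        G (FF δ x) Puv Puv - G (FF δ x) Pvv Puu := by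
    intro x u v Puv Puu Pvv h1 h2 h3
    -- the vectors for the pulled back metric
    have hsurj : ∀ w : E, ∃ w' : E, dd w' (FF δ) x = w := by
      have hi : Function.Injective (fderiv ℝ (FF δ) x : E →ₗ[ℝ] E) := by
        rw [← LinearMap.ker_eq_bot, LinearMap.ker_eq_bot']
        intro m hm
        exact dd_FF_inj δ hδ x m hm
      have := LinearMap.injective_iff_surjective.mp hi
      exact this
    obtain ⟨Quv, q1⟩ := hsurj (Puv + dd u (dd v (FF δ)) x)
    obtain ⟨Quu, q2⟩ := hsurj (Puu + dd u (dd u (FF δ)) x)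
    obtain ⟨Qvv, q3⟩ := hsurj (Pvv + dd v (dd v (FF δ)) x)
    have r1 : ∀ a, P x Quv a = Gam P x a u v := by
      intro a
      rw [hP, Gam_pull hG hF hs, pull_dd, q1, map_add, add_apply, h1]
    have r2 : ∀ a, P x Quu a = Gam P x a u u := by
      intro a
      rw [hP, Gam_pull hG hF hs, pull_dd, q2, map_add, add_apply, h2]
    have r3 : ∀ a, P x Qvv a = Gam P x a v v := by
      intro a
      rw [hP, Gam_pull hG hF hs, pull_dd, q3, map_add, add_apply, h3]
    have r1' : ∀ a, P x Quv a = Gam P x a v u := by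
      intro a
      rw [Gam_symm hPs, r1]
    rw [Rf_eq (hPs x) (hPpos x) u v Quv Quv Quu Qvv r1 r1' r2 r3]
    have := sec_pull hG hF hs x u v Puv Puu Pvv h1 h2 h3
    rw [← this, hP, pull_dd, pull_dd, q1, q2, q3]
  have hLin : ∀ x u v w z : E, ∑ i, ∑ k, ∑ l, ∑ m, Rie P i k l m x * u i * v k * w l * z m
      = Rf P x u v w z := Rf_lin hPc
  have hGpos : ∀ x v : E, v ≠ 0 → 0 < G (FF δ x) v v := fun x v hv => hpos _ (FF_lt δ hδ x) v hv
  refine ⟨gco P, Chr P, Rie P, ?_, ?_, ?_, ?_, ?_, ?_, ?_, ?_⟩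
  · intro i j n
    exact sc_contDiff hPc _ _ n
  · intro i j x
    exact hPs x _ _
  · intro x v hv
    have h := hPpos x v hv
    have e : ∑ i, ∑ j, gco P i j x * v i * v j = P x v v := by
      have h1 := lin_G1 P x v v
      simp only at h1
      rw [← h1]
      apply Finset.sum_congr rfl
      intro i _
      have h2 := lin_G2 P x (ee i) v
      simp only at h2
      rw [← h2, Finset.sum_mul]
      apply Finset.sum_congr rfl
      intro j _
      show P x (ee i) (ee j) * v i * v j = _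
      ring
    rw [e]
    exact h
  · intro i j x
    have hp : ∀ k : Fin 4, k.val < 2 → P (x + ee k) = P x := by
      intro k hk
      have hdF : ∀ u : E, dd u (FF δ) (x + ee k) = dd u (FF δ) x := by
        intro u
        have h1 : (fun y => FF δ (y + ee k)) = fun y => FF δ y + ee k := by
          funext y; exact FF_per δ k hk y
        have h2 : fderiv ℝ (fun y => FF δ (y + ee k)) x = fderiv ℝ (FF δ) (x + ee k) :=
          fderiv_comp_add_right (ee k)
        rw [h1, fderiv_add_const] at h2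
        unfold dd
        rw [h2]
      ext u v
      rw [hP, pull_dd, pull_dd, hdF, hdF, FF_per δ k hk, hper _ k hk]
    constructor
    · show P (x + ee 0) _ _ = P x _ _
      rw [hp 0 (by norm_num)]
    · show P (x + ee 1) _ _ = P x _ _
      rw [hp 1 (by norm_num)]
  · intro a k l x
    rfl
  · intro i k l m x
    rfl
  · intro x h2 h3
    constructor
    · intro i j n hi hj _
      apply Finset.sum_eq_zero
      intro a _
      have : Chr P a i j x = 0 := hGam0 x h2 h3 (ee a) i j hi hj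
      rw [this, mul_zero]
    · have e2 : FF δ x 2 = 0 := by
        show hh δ x * x 2 = 0
        rw [h2, mul_zero]
      have e3 : FF δ x 3 = 0 := by
        show hh δ x * x 3 = 0
        rw [h3, mul_zero]
      have h0 : (0 : Fin 4).val < 2 := by norm_num
      have h1 : (1 : Fin 4).val < 2 := by norm_num
      have hr := hRf x (ee 0) (ee 1) 0 0 0 (by
        intro a
        rw [dd_FF_tan δ 0 h0 hδ, dd_FF_tan δ 1 h1 hδ, hΓ _ e2 e3 a 0 1 h0 h1]; simp) (by
        intro a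
        rw [dd_FF_tan δ 0 h0 hδ, hΓ _ e2 e3 a 0 0 h0 h0]; simp) (by
        intro a
        rw [dd_FF_tan δ 1 h1 hδ, hΓ _ e2 e3 a 1 1 h1 h1]; simp)
      rw [Rie_eq, hr, dd_FF_tan δ 0 h0 hδ, dd_FF_tan δ 1 h1 hδ, hflat _ e2 e3]
      simp
  · intro x hx u v huv
    rw [hLin]
    have hx' := FF_pos δ hδ x hx
    have hx'' := FF_lt δ hδ x
    set U := dd u (FF δ) x with hU
    set V := dd v (FF δ) x with hV
    obtain ⟨Puv, p1⟩ := exists_sharp (fun u v => hs (FF δ x) u v) (hGpos x)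
      (fun a => Gam G (FF δ x) a U V) (lin_gam1 dG _ _ _)
    obtain ⟨Puu, p2⟩ := exists_sharp (fun u v => hs (FF δ x) u v) (hGpos x)
      (fun a => Gam G (FF δ x) a U U) (lin_gam1 dG _ _ _)
    obtain ⟨Pvv, p3⟩ := exists_sharp (fun u v => hs (FF δ x) u v) (hGpos x)
      (fun a => Gam G (FF δ x) a V V) (lin_gam1 dG _ _ _)
    rw [hRf x u v Puv Puu Pvv p1 p2 p3]
    refine hK _ hx' hx'' U V ?_ Puv Puu Pvv p1 p2 p3
    -- linear independence
    rw [LinearIndependent.pair_iff] at huv ⊢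
    intro s t hst
    apply huv s t
    have : dd (s • u + t • v) (FF δ) x = 0 := by
      unfold dd
      rw [map_add, map_smul, map_smul]
      exact hst
    exact dd_FF_inj δ hδ x _ this

end Pool.Agent.helper26.Torus
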